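import Pool.Agent.helper7.Blk.Step
import Pool.Agent.helper17.DyS.Scale

/-!
# Scaling: the probability that a dyadic box has a branching tiling
-/

set_option autoImplicit false
open scoped Classical
open Finset Pool.Agent.helper17.Dya Pool.Agent.helper17.DyS Pool.Agent.helper7.Blk

namespace Pool.Agent.helper78.Blk

private lemma scale_nat {n m β k P x : ℕ} (h1 : β + m ≤ n) (hk : k ≤ m) (hx : x / 2 ^ (n - β) = P) (a : ℕ) :
    x / 2 ^ (n - (β + k)) = P * 2 ^ k + a ↔ ((x % 2 ^ (n - β)) / 2 ^ (n - β - m)) / 2 ^ (m - k) = a := by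
  obtain ⟨d, hd⟩ : ∃ d, d = n - β - m := ⟨_, rfl⟩
  obtain ⟨j, hj⟩ : ∃ j, j = m - k := ⟨_, rfl⟩
  have e1 : n - β = k + (j + d) := by omega
  have e2 : n - (β + k) = j + d := by omega
  rw [← hd, ← hj, e2, e1]
  rw [e1] at hx
  have h2 : x = 2 ^ (j + d) * (P * 2 ^ k) + x % 2 ^ (k + (j + d)) := by
    have h3 := Nat.div_add_mod x (2 ^ (k + (j + d)))
    rw [hx, pow_add 2 k (j + d)] at h3
    rw [pow_add 2 k (j + d)]
    calc x = 2 ^ k * 2 ^ (j + d) * P + x % (2 ^ k * 2 ^ (j + d)) := h3.symm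
      _ = _ := by ring
  have h4 : x / 2 ^ (j + d) = P * 2 ^ k + x % 2 ^ (k + (j + d)) / 2 ^ (j + d) := by
    conv_lhs => rw [h2]
    rw [Nat.mul_add_div (by positivity)]
  rw [h4, Nat.div_div_eq_div_mul, ← pow_add, add_comm d j]
  constructor
  · intro h
    omega
  · intro h
    omega

private lemma scale_lt {n m β x : ℕ} (h1 : β + m ≤ n) : (x % 2 ^ (n - β)) / 2 ^ (n - β - m) < 2 ^ m := by
  rw [Nat.div_lt_iff_lt_mul (by positivity), ← pow_add]
  have : m + (n - β - m) = n - β := by omega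
  rw [this]
  exact Nat.mod_lt _ (by positivity)

private lemma scale_X {n m β P y : ℕ} (h1 : β + m ≤ n) (hP : P < 2 ^ β) (hy : y < 2 ^ m) :
    P * 2 ^ (n - β) + y * 2 ^ (n - β - m) < 2 ^ n ∧
    (P * 2 ^ (n - β) + y * 2 ^ (n - β - m)) / 2 ^ (n - β) = P ∧
    ((P * 2 ^ (n - β) + y * 2 ^ (n - β - m)) % 2 ^ (n - β)) / 2 ^ (n - β - m) = y := by
  have h2 : y * 2 ^ (n - β - m) < 2 ^ (n - β) := by
    have : n - β = m + (n - β - m) := by omega
    calc y * 2 ^ (n - β - m) < 2 ^ m * 2 ^ (n - β - m) := Nat.mul_lt_mul_of_pos_right hy (by positivity)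
      _ = 2 ^ (n - β) := by rw [← pow_add, ← this]
  refine ⟨?_, ?_, ?_⟩
  · have h3 : 2 ^ n = 2 ^ β * 2 ^ (n - β) := by
      rw [← pow_add]
      congr 1
      omega
    rw [h3]
    calc P * 2 ^ (n - β) + y * 2 ^ (n - β - m) < P * 2 ^ (n - β) + 2 ^ (n - β) := by omega
      _ = (P + 1) * 2 ^ (n - β) := by ring
      _ ≤ 2 ^ β * 2 ^ (n - β) := Nat.mul_le_mul_right _ hP
  · rw [mul_comm P, Nat.mul_add_div (by positivity), Nat.div_eq_of_lt h2, add_zero]
  · rw [mul_comm P, Nat.mul_add_mod, Nat.mod_eq_of_lt h2, Nat.mul_div_cancel _ (by positivity)]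

/-- the box of relative orders and positions `s` inside of `B` -/
private def sc (B s : Tl) : Tl :=
  (fun i => B.1 i + s.1 i, fun i => B.2 i * 2 ^ (s.1 i) + s.2 i)

private lemma sc_od (B s : Tl) : od (sc B s) = od B + od s := by
  unfold od sc
  exact sum_add_distrib

private lemma sc_cube (B : Tl) : sc B cube = B := by
  unfold sc cube
  refine Prod.ext (funext fun i => ?_) (funext fun i => ?_)
  · simp
  · simp

private lemma sc_Vp {B s : Tl} (hB : Vp B) (hs : Vp s) : Vp (sc B s) := by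
  intro i
  have h1 := hB i
  have h2 := hs i
  change B.2 i * 2 ^ (s.1 i) + s.2 i < 2 ^ (B.1 i + s.1 i)
  rw [pow_add]
  calc B.2 i * 2 ^ (s.1 i) + s.2 i < B.2 i * 2 ^ (s.1 i) + 2 ^ (s.1 i) := by omega
    _ = (B.2 i + 1) * 2 ^ (s.1 i) := by ring
    _ ≤ 2 ^ B.1 i * 2 ^ (s.1 i) := Nat.mul_le_mul_right _ h1

private lemma sc_Sb {B s : Tl} (hs : Vp s) : Sb (sc B s) B := by
  intro i
  refine ⟨Nat.le_add_right _ _, ?_⟩
  change (B.2 i * 2 ^ (s.1 i) + s.2 i) / 2 ^ (B.1 i + s.1 i - B.1 i) = B.2 i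
  rw [Nat.add_sub_cancel_left, mul_comm, Nat.mul_add_div (by positivity), Nat.div_eq_of_lt (hs i), add_zero]

private lemma sc_Sb_iff {B s t : Tl} : Sb (sc B s) (sc B t) ↔ Sb s t := by
  refine forall_congr' fun i => ?_
  change (B.1 i + t.1 i ≤ B.1 i + s.1 i ∧
    (B.2 i * 2 ^ (s.1 i) + s.2 i) / 2 ^ (B.1 i + s.1 i - (B.1 i + t.1 i)) = B.2 i * 2 ^ (t.1 i) + t.2 i) ↔
    (t.1 i ≤ s.1 i ∧ s.2 i / 2 ^ (s.1 i - t.1 i) = t.2 i)
  have e1 : (B.1 i + t.1 i ≤ B.1 i + s.1 i) ↔ t.1 i ≤ s.1 i := by omega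
  rw [e1]
  refine and_congr_right fun hle => ?_
  rw [Nat.add_sub_add_left]
  have e2 : B.2 i * 2 ^ (s.1 i) = 2 ^ (s.1 i - t.1 i) * (B.2 i * 2 ^ (t.1 i)) := by
    have : 2 ^ (s.1 i) = 2 ^ (s.1 i - t.1 i) * 2 ^ (t.1 i) := by
      rw [← pow_add]
      congr 1
      omega
    rw [this]
    ring
  rw [e2, Nat.mul_add_div (by positivity)]
  exact Nat.add_left_cancel_iff

private lemma exists_sc {B S : Tl} (h : Sb S B) : ∃ s : Tl, Vp s ∧ sc B s = S := by
  refine ⟨(fun i => S.1 i - B.1 i, fun i => S.2 i % 2 ^ (S.1 i - B.1 i)),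
    fun i => Nat.mod_lt _ (by positivity), ?_⟩
  refine Prod.ext (funext fun i => ?_) (funext fun i => ?_)
  · change B.1 i + (S.1 i - B.1 i) = S.1 i
    have := (h i).1
    omega
  · change B.2 i * 2 ^ (S.1 i - B.1 i) + S.2 i % 2 ^ (S.1 i - B.1 i) = S.2 i
    have h2 := Nat.div_add_mod (S.2 i) (2 ^ (S.1 i - B.1 i))
    rw [(h i).2, mul_comm] at h2
    exact h2

/-- the boxes of order `m` as boxes of order `n` inside of `B` -/
private def sm {n m : ℕ} {B : Tl} (hm : m ≤ n) (hB : Vl (n - m) B) (b : It m) : It n :=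
  ⟨sc B b.1, by
    have h1 : od (sc B b.1) = n := by
      rw [sc_od]
      have h2 : od B = n - m := hB.1
      have h3 : od b.1 = m := b.2.1
      omega
    exact ⟨h1, sc_Vp hB.2 b.2.2⟩⟩

private lemma sm_inj {n m : ℕ} {B : Tl} (hm : m ≤ n) (hB : Vl (n - m) B) :
    Function.Injective (sm hm hB) := by
  intro b b' h
  have h1 : ∀ i, B.1 i + b.1.1 i = B.1 i + b'.1.1 i := fun i => congrFun (congrArg (fun c : It n => c.1.1) h) i
  have h2 : ∀ i, B.2 i * 2 ^ (b.1.1 i) + b.1.2 i = B.2 i * 2 ^ (b'.1.1 i) + b'.1.2 i :=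
    fun i => congrFun (congrArg (fun c : It n => c.1.2) h) i
  have h3 : ∀ i, b.1.1 i = b'.1.1 i := fun i => by
    have := h1 i
    omega
  refine Subtype.ext (Prod.ext (funext h3) (funext fun i => ?_))
  have h4 := h2 i
  rw [h3 i] at h4
  exact Nat.add_left_cancel h4

private lemma sm_surj {n m : ℕ} {B : Tl} (hm : m ≤ n) (hB : Vl (n - m) B) (c : It n) (hc : Sb c.1 B) :
    ∃ b : It m, sm hm hB b = c := by
  obtain ⟨s, hs, he⟩ := exists_sc hc
  have h1 : od s = m := by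
    have h2 := sc_od B s
    have h3 : od B = n - m := hB.1
    have h4 : od (sc B s) = n := by
      rw [he]
      exact c.2.1
    omega
  exact ⟨⟨s, h1, hs⟩, Subtype.ext he⟩

private lemma sc_le {n m : ℕ} {B : Tl} (hm : m ≤ n) (hB : Vl (n - m) B) (i : Fin 3) : B.1 i + m ≤ n := by
  have := hB.le i
  omega

private lemma sc_Cv {n m : ℕ} {B s : Tl} (hm : m ≤ n) (hB : Vl (n - m) B) (hs : od s ≤ m)
    {x : Fin 3 → ℕ} (hx : Cv n B x) : Cv n (sc B s) x ↔
      Cv m s (fun i => (x i % 2 ^ (n - B.1 i)) / 2 ^ (n - B.1 i - m)) := by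
  unfold Cv
  refine forall_congr' fun i => ?_
  exact scale_nat (sc_le hm hB i) ((le_od s i).trans hs) (hx i) (s.2 i)

private lemma sc_Cv_up {n m : ℕ} {B s : Tl} {x : Fin 3 → ℕ} (hm : m ≤ n) (hB : Vl (n - m) B)
    (hs : od s ≤ m) (hV : Vp s) (h : Cv n (sc B s) x) : Cv n B x := by
  refine Cv_of_Sb (fun i => ?_) (sc_Sb hV) h
  change B.1 i + s.1 i ≤ n
  have h1 := sc_le hm hB i
  have h2 := le_od s i
  omega

/-- the cell of level `n` which is the lift of a cell of level `m` -/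
private lemma exists_lift {n m : ℕ} {B : Tl} (hm : m ≤ n) (hB : Vl (n - m) B) {y : Fin 3 → ℕ}
    (hy : ∀ i, y i < 2 ^ m) : ∃ x : Fin 3 → ℕ, (∀ i, x i < 2 ^ n) ∧ Cv n B x ∧
      (fun i => (x i % 2 ^ (n - B.1 i)) / 2 ^ (n - B.1 i - m)) = y := by
  have hx := fun i => scale_X (sc_le hm hB i) (hB.2 i) (hy i)
  exact ⟨fun i => B.2 i * 2 ^ (n - B.1 i) + y i * 2 ^ (n - B.1 i - m), fun i => (hx i).1,
    fun i => (hx i).2.1, funext fun i => (hx i).2.2⟩

private lemma sc_Un {n m : ℕ} {B s : Tl} (hm : m ≤ n) (hB : Vl (n - m) B) (hs : od s ≤ m)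
    (hV : Vp s) (R : Set (It n)) : Un R (sc B s) ↔ Un {b | sm hm hB b ∈ R} s := by
  constructor
  · intro H y hy hys
    obtain ⟨x, hx, hxB, hxy⟩ := exists_lift hm hB hy
    have h1 : Cv n (sc B s) x := by
      rw [sc_Cv hm hB hs hxB, hxy]
      exact hys
    obtain ⟨c, hc, hcs, hcx⟩ := H x hx h1
    obtain ⟨b, rfl⟩ := sm_surj hm hB c (hcs.trans (sc_Sb hV))
    refine ⟨b, hc, sc_Sb_iff.1 hcs, ?_⟩
    have h2 : Cv n (sc B b.1) x := hcx
    rw [sc_Cv hm hB b.2.1.le hxB, hxy] at h2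
    exact h2
  · intro H x hx hxs
    have hxB := sc_Cv_up hm hB hs hV hxs
    rw [sc_Cv hm hB hs hxB] at hxs
    obtain ⟨b, hb, hbs, hby⟩ := H _ (fun i => scale_lt (sc_le hm hB i)) hxs
    refine ⟨sm hm hB b, hb, sc_Sb_iff.2 hbs, ?_⟩
    change Cv n (sc B b.1) x
    rw [sc_Cv hm hB b.2.1.le hxB]
    exact hby

private lemma sc_Dj {n m : ℕ} {B c d : Tl} (hm : m ≤ n) (hB : Vl (n - m) B) (hc : od c ≤ m)
    (hd : od d ≤ m) (hV : Vp c) : Dj n (sc B c) (sc B d) ↔ Dj m c d := by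
  constructor
  · intro H y hy hyc hyd
    obtain ⟨x, hx, hxB, hxy⟩ := exists_lift hm hB hy
    refine H x hx ?_ ?_
    · rw [sc_Cv hm hB hc hxB, hxy]
      exact hyc
    · rw [sc_Cv hm hB hd hxB, hxy]
      exact hyd
  · intro H x hx hxc hxd
    have hxB := sc_Cv_up hm hB hc hV hxc
    rw [sc_Cv hm hB hc hxB] at hxc
    rw [sc_Cv hm hB hd hxB] at hxd
    exact H _ (fun i => scale_lt (sc_le hm hB i)) hxc hxd

private lemma Good_down {h n m : ℕ} {B : Tl} (hm : m ≤ n) (hB : Vl (n - m) B) {R : Set (It n)}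
    {S : Tl} (H : Good h R S) : ∀ s : Tl, Vp s → od s ≤ m → sc B s = S →
      Good h {b | sm hm hB b ∈ R} s := by
  have hoB : od B = n - m := hB.1
  induction H with
  | small S hU hn =>
    intro s hV hs he
    subst he
    rw [sc_od] at hn
    exact .small s ((sc_Un hm hB hs hV R).1 hU) (by omega)
  | two S C D hU hC hD hCD _ _ ihC ihD =>
    intro s hV hs he
    subst he
    have hU' := (sc_Un hm hB hs hV R).1 hU
    rcases Nat.lt_or_ge (od s + h) m with h1 | h1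
    · obtain ⟨c1, c2, c3⟩ := hC
      obtain ⟨d1, d2, d3⟩ := hD
      obtain ⟨c, hc, rfl⟩ := exists_sc (c2.trans (sc_Sb hV))
      obtain ⟨d, hd, rfl⟩ := exists_sc (d2.trans (sc_Sb hV))
      rw [sc_od, sc_od] at c3 d3
      have hcm : od c ≤ m := by omega
      have hdm : od d ≤ m := by omega
      exact .two s c d hU' ⟨hc, sc_Sb_iff.1 c2, by omega⟩ ⟨hd, sc_Sb_iff.1 d2, by omega⟩
        ((sc_Dj hm hB hcm hdm hc).1 hCD) (ihC c hc hcm rfl) (ihD d hd hdm rfl)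
    · exact .small s hU' h1

private lemma Good_up {h n m : ℕ} {B : Tl} (hm : m ≤ n) (hB : Vl (n - m) B) {R : Set (It n)}
    {s : Tl} (H : Good h {b | sm hm hB b ∈ R} s) : Vp s → od s ≤ m → Good h R (sc B s) := by
  have hoB : od B = n - m := hB.1
  induction H with
  | small s hU hn =>
    intro hV hs
    refine .small _ ((sc_Un hm hB hs hV R).2 hU) ?_
    rw [sc_od]
    omega
  | two s c d hU hc hd hcd _ _ ihc ihd =>
    intro hV hs
    have hU' := (sc_Un hm hB hs hV R).2 hU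
    rcases Nat.lt_or_ge (od s + h) m with h1 | h1
    · obtain ⟨c1, c2, c3⟩ := hc
      obtain ⟨d1, d2, d3⟩ := hd
      have hcm : od c ≤ m := by omega
      have hdm : od d ≤ m := by omega
      refine .two _ (sc B c) (sc B d) hU' ⟨sc_Vp hB.2 c1, sc_Sb_iff.2 c2, ?_⟩
        ⟨sc_Vp hB.2 d1, sc_Sb_iff.2 d2, ?_⟩ ((sc_Dj hm hB hcm hdm c1).2 hcd) (ihc c1 hcm) (ihd d1 hdm)
      · rw [sc_od, sc_od]
        omega
      · rw [sc_od, sc_od]
        omega
    · refine .small _ hU' ?_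
      rw [sc_od]
      omega

private lemma it_cube {m : ℕ} (b : It m) : Sb b.1 cube := by
  intro i
  refine ⟨Nat.zero_le _, ?_⟩
  change b.1.2 i / 2 ^ (b.1.1 i - 0) = 0
  rw [Nat.sub_zero]
  exact Nat.div_eq_of_lt (b.2.2 i)

private lemma scale_AlB {h n m : ℕ} {B : Tl} (hm : m ≤ n) (hB : Vl (n - m) B) (ω : It n → Bool) :
    AlB h n B ω ↔ AlB h m cube (fun b => ω (sm hm hB b)) := by
  have hVc : Vp cube := Vl_cube.2
  have hoc : od cube ≤ m := by
    have : od cube = 0 := Vl_cube.1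
    omega
  constructor
  · rintro ⟨R, hR, hR2, hG⟩
    refine ⟨{b | sm hm hB b ∈ R}, fun b hb => ⟨(hR _ hb).1, it_cube b⟩, ?_,
      Good_down hm hB hG cube hVc hoc (sc_cube B)⟩
    intro y hy _
    obtain ⟨x, hx, hxB, hxy⟩ := exists_lift hm hB hy
    obtain ⟨c, ⟨hc, hcx⟩, hu⟩ := hR2 x hx hxB
    obtain ⟨b, rfl⟩ := sm_surj hm hB c (hR c hc).2
    refine ⟨b, ⟨hc, ?_⟩, ?_⟩
    · have h2 : Cv n (sc B b.1) x := hcx
      rw [sc_Cv hm hB b.2.1.le hxB, hxy] at h2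
      exact h2
    · rintro b' ⟨hb', hb'y⟩
      apply sm_inj hm hB
      refine hu _ ⟨hb', ?_⟩
      change Cv n (sc B b'.1) x
      rw [sc_Cv hm hB b'.2.1.le hxB, hxy]
      exact hb'y
  · rintro ⟨R, hR, hR2, hG⟩
    have e1 : {b | sm hm hB b ∈ sm hm hB '' R} = R := by
      ext b
      exact ⟨fun ⟨b', hb', he⟩ => (sm_inj hm hB he) ▸ hb', fun hb => ⟨b, hb, rfl⟩⟩
    refine ⟨sm hm hB '' R, ?_, ?_, ?_⟩
    · rintro _ ⟨b, hb, rfl⟩
      exact ⟨(hR b hb).1, sc_Sb b.2.2⟩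
    · intro x _ hxB
      obtain ⟨b, ⟨hb, hby⟩, hu⟩ := hR2 (fun i => (x i % 2 ^ (n - B.1 i)) / 2 ^ (n - B.1 i - m))
        (fun i => scale_lt (sc_le hm hB i)) (fun i => by
          change _ / 2 ^ (m - 0) = 0
          rw [Nat.sub_zero]
          exact Nat.div_eq_of_lt (scale_lt (sc_le hm hB i)))
      refine ⟨sm hm hB b, ⟨⟨b, hb, rfl⟩, ?_⟩, ?_⟩
      · change Cv n (sc B b.1) x
        rw [sc_Cv hm hB b.2.1.le hxB]
        exact hby
      · rintro _ ⟨⟨b', hb', rfl⟩, hb'x⟩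
        have h2 : Cv n (sc B b'.1) x := hb'x
        rw [sc_Cv hm hB b'.2.1.le hxB] at h2
        rw [hu b' ⟨hb', h2⟩]
    · rw [← e1] at hG
      have h3 := Good_up hm hB hG hVc hoc
      rw [sc_cube] at h3
      exact h3

/-- the probability of a branching tiling of a box depends on its relative order only -/
theorem Pr_AlB {h n m : ℕ} {p : ℝ} {B : Tl} (hm : m ≤ n) (hB : Vl (n - m) B) :
    Pr p (AlB h n B) = TB h m p := by
  rw [Pr_congr (scale_AlB hm hB)]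
  exact Pr_comp (sm hm hB) (sm_inj hm hB) (AlB h m cube)

end Pool.Agent.helper78.Blk
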